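import Pool.Agent.Lib.MP_adb389_agW.AllC

/-!
# The strong Lefschetz property of the complete intersections `x_i ^ d_i * y_i` for block triangular matrices

Let `K` be a field of characteristic zero, `A` an `n × n` matrix over `K` all of whose principal minors
are nonzero, `y_i = ∑ j, a_ij x_j` and `I_(A,d) = (x_i ^ d_i * y_i)`. Suppose that the indices can be
divided into blocks and ordered such that `A` is block triangular and, inside of each block, all rows but
the last three have nonzero entries only on the diagonal and at the next index. Then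
`K[x_1, ..., x_n] / I_(A,d)` has the strong Lefschetz property, for every exponent vector `d`.
-/

set_option autoImplicit false

namespace Pool.Agent.Results.MP_adb389_ag.BlockSLP

open MvPolynomial

/-- The linear form `y_i = ∑ j, a_ij x_j`. -/
noncomputable def rowForm {n : ℕ} {K : Type} [Field K] (A : Matrix (Fin n) (Fin n) K)
    (i : Fin n) : MvPolynomial (Fin n) K := ∑ j, C (A i j) * X j

/-- The ideal `I_(A,d)` generated by the `x_i ^ d_i * y_i`. -/
noncomputable def idealAd {n : ℕ} {K : Type} [Field K] (A : Matrix (Fin n) (Fin n) K)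
    (d : Fin n → ℕ) : Ideal (MvPolynomial (Fin n) K) :=
  Ideal.span (Set.range fun i => X i ^ d i * rowForm A i)

/-- The graded piece `B_k` of `B = R / I`: the image of the homogeneous polynomials of degree
`k`. -/
noncomputable def piece {n : ℕ} {K : Type} [Field K] (I : Ideal (MvPolynomial (Fin n) K))
    (k : ℕ) : Submodule K (MvPolynomial (Fin n) K ⧸ I) :=
  (homogeneousSubmodule (Fin n) K k).map (Ideal.Quotient.mkₐ K I).toLinearMap

/-- The multiplication by `L ^ s` from `B_k` to `B_(k+s)` is injective or surjective. -/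
def MaxRank {n : ℕ} {K : Type} [Field K] (I : Ideal (MvPolynomial (Fin n) K))
    (L : MvPolynomial (Fin n) K) (k s : ℕ) : Prop :=
  (∀ b ∈ piece I k, Ideal.Quotient.mk I L ^ s * b = 0 → b = 0) ∨
    (∀ b ∈ piece I (k + s), ∃ a ∈ piece I k, Ideal.Quotient.mk I L ^ s * a = b)

/-- `L` is a strong Lefschetz element of `R / I`. -/
def StrongLefschetz {n : ℕ} {K : Type} [Field K] (I : Ideal (MvPolynomial (Fin n) K))
    (L : MvPolynomial (Fin n) K) : Prop :=
  L.IsHomogeneous 1 ∧ ∀ k s : ℕ, MaxRank I L k s

/-- The principal minor of `A` on the index set `S`. -/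
noncomputable def minor {n : ℕ} {K : Type} [Field K] (A : Matrix (Fin n) (Fin n) K)
    (S : Finset (Fin n)) : K :=
  (A.submatrix (fun i : S => (i : Fin n)) (fun i : S => (i : Fin n))).det

end Pool.Agent.Results.MP_adb389_ag.BlockSLP

namespace Pool.Agent.Results.MP_adb389_ag.BlockSLP

open MvPolynomial Pool.Agent.Lib.MP_adb389_ag Pool.Agent.Lib.MP_adb389_agW

variable {n : ℕ} {K : Type} [Field K]

theorem maxRank_of {I : Ideal (MvPolynomial (Fin n) K)} {L : MvPolynomial (Fin n) K}
    {k s : ℕ} (h : Inj I (L ^ s) k ∨ Sur I (L ^ s) k s) : MaxRank I L k s := by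
  rcases h with h | h
  · left
    rintro _ ⟨f, hf, rfl⟩ hb
    have h1 : Ideal.Quotient.mk I (L ^ s * f) = 0 := by
      rw [map_mul, map_pow]
      exact hb
    exact Ideal.Quotient.eq_zero_iff_mem.2 (h f hf (Ideal.Quotient.eq_zero_iff_mem.1 h1))
  · right
    rintro _ ⟨p, hp, rfl⟩
    obtain ⟨f, hf, hfp⟩ := h p hp
    refine ⟨_, ⟨f, hf, rfl⟩, ?_⟩
    show Ideal.Quotient.mk I L ^ s * Ideal.Quotient.mk I f = Ideal.Quotient.mk I p
    rw [← map_pow, ← map_mul]
    exact (Ideal.Quotient.eq.2 hfp).symm

/-- The strong Lefschetz property for block triangular matrices: `t i` is the number of the block of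
the index `i`, and `o` orders the indices. -/
theorem result (n : ℕ) (K : Type) [Field K] [CharZero K] (A : Matrix (Fin n) (Fin n) K)
    (hA : ∀ S, minor A S ≠ 0) (t o : Fin n → ℕ) (ho : Function.Injective o)
    (htri : ∀ i j, A i j ≠ 0 → t j ≤ t i)
    (hrow : ∀ i j, A i j ≠ 0 → t j = t i → j = i ∨ o j = o i + 1 ∨
      (Finset.univ.filter fun l => t l = t i ∧ o i ≤ o l).card ≤ 3) (d : Fin n → ℕ) :
    ∃ L : MvPolynomial (Fin n) K, StrongLefschetz (idealAd A d) L := by
  obtain ⟨c, hc⟩ := slp_block n K A (good_of_det hA) t o ⟨ho, htri, hrow⟩ d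
  exact ⟨lin c, lin_hom' c, fun k s => maxRank_of (hc k s)⟩

end Pool.Agent.Results.MP_adb389_ag.BlockSLP
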