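import Pool.Agent.Lib.MP_adb389_agW.All

/-!
# The weak Lefschetz property of the complete intersections `x_i ^ d_i * y_i` in four variables

Let `K` be a field of characteristic zero, `A` a `4 × 4` matrix over `K` all of whose principal minors
are nonzero, `y_i = ∑ j, a_ij x_j` and `I_(A,d) = (x_i ^ d_i * y_i)`. Then `K[x_1, ..., x_4] / I_(A,d)`
has the weak Lefschetz property, for every exponent vector `d`.
-/

set_option autoImplicit false

namespace Pool.Agent.Results.MP_adb389_ag.FourVariablesWLP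

open MvPolynomial

/-- The linear form `y_i = ∑ j, a_ij x_j`. -/
noncomputable def rowForm {n : ℕ} {K : Type} [Field K] (A : Matrix (Fin n) (Fin n) K)
    (i : Fin n) : MvPolynomial (Fin n) K := ∑ j, C (A i j) * X j

/-- The ideal `I_(A,d)` generated by the `x_i ^ d_i * y_i`. -/
noncomputable def idealAd {n : ℕ} {K : Type} [Field K] (A : Matrix (Fin n) (Fin n) K)
    (d : Fin n → ℕ) : Ideal (MvPolynomial (Fin n) K) :=
  Ideal.span (Set.range fun i => X i ^ d i * rowForm A i)

/-- The graded piece `B_k` of `B = R / I`: the image of the homogeneous polynomials of degree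
`k`. -/
noncomputable def piece {n : ℕ} {K : Type} [Field K] (I : Ideal (MvPolynomial (Fin n) K))
    (k : ℕ) : Submodule K (MvPolynomial (Fin n) K ⧸ I) :=
  (homogeneousSubmodule (Fin n) K k).map (Ideal.Quotient.mkₐ K I).toLinearMap

/-- `L` is a weak Lefschetz element of `R / I`: it is a linear form and the multiplication by `L`
from `B_k` to `B_(k+1)` is injective or surjective, for every `k`. -/
def WeakLefschetz {n : ℕ} {K : Type} [Field K] (I : Ideal (MvPolynomial (Fin n) K))
    (L : MvPolynomial (Fin n) K) : Prop :=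
  L.IsHomogeneous 1 ∧ ∀ k : ℕ,
    (∀ b ∈ piece I k, Ideal.Quotient.mk I L * b = 0 → b = 0) ∨
      (∀ b ∈ piece I (k + 1), ∃ a ∈ piece I k, Ideal.Quotient.mk I L * a = b)

/-- The principal minor of `A` on the index set `S`. -/
noncomputable def minor {n : ℕ} {K : Type} [Field K] (A : Matrix (Fin n) (Fin n) K)
    (S : Finset (Fin n)) : K :=
  (A.submatrix (fun i : S => (i : Fin n)) (fun i : S => (i : Fin n))).det

end Pool.Agent.Results.MP_adb389_ag.FourVariablesWLP

namespace Pool.Agent.Results.MP_adb389_ag.FourVariablesWLP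

open MvPolynomial Pool.Agent.Lib.MP_adb389_ag Pool.Agent.Lib.MP_adb389_agW

variable {n : ℕ} {K : Type} [Field K]

theorem weak_of {A : Matrix (Fin n) (Fin n) K} {d : Fin n → ℕ} {c : Fin n → K}
    (h : ∀ k : ℕ, Inj (idl A d) (lin c) k ∨ Sur (idl A d) (lin c) k 1) :
    WeakLefschetz (idealAd A d) (lin c) := by
  have hI : idealAd A d = idl A d := rfl
  rw [hI]
  refine ⟨lin_hom' c, fun k => ?_⟩
  rcases h k with h | h
  · left
    rintro _ ⟨f, hf, rfl⟩ hb
    have h1 : Ideal.Quotient.mk (idl A d) (lin c * f) = 0 := by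
      rw [map_mul]
      exact hb
    exact Ideal.Quotient.eq_zero_iff_mem.2 (h f hf (Ideal.Quotient.eq_zero_iff_mem.1 h1))
  · right
    rintro _ ⟨p, hp, rfl⟩
    obtain ⟨f, hf, hfp⟩ := h p hp
    refine ⟨_, ⟨f, hf, rfl⟩, ?_⟩
    show Ideal.Quotient.mk (idl A d) (lin c) * Ideal.Quotient.mk (idl A d) f =
      Ideal.Quotient.mk (idl A d) p
    rw [← map_mul]
    exact (Ideal.Quotient.eq.2 hfp).symm

/-- The weak Lefschetz property for `n = 4`. -/
theorem result (K : Type) [Field K] [CharZero K] (A : Matrix (Fin 4) (Fin 4) K)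
    (hA : ∀ S, minor A S ≠ 0) (d : Fin 4 → ℕ) :
    ∃ L : MvPolynomial (Fin 4) K, WeakLefschetz (idealAd A d) L := by
  obtain ⟨c, hc⟩ := wlp_four K A (good_of_det hA) d
  exact ⟨lin c, weak_of hc⟩

end Pool.Agent.Results.MP_adb389_ag.FourVariablesWLP
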