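import Pool.Agent.Lib.MP_adb389_ag.Inv
import Pool.Agent.Lib.MP_adb389_ag.Main
import Pool.Agent.Lib.MP_adb389_ag.Mono

/-!
# The weak Lefschetz property and rank one changes of the matrix

Let `K` be a field of characteristic zero, `A` an `n × n` matrix, `y_i = ∑ j, a_ij x_j` and
`I_(A,d) = (x_i ^ d_i * y_i)`. The weak Lefschetz property with Lefschetz element `c · x` does not
change if a matrix `u cᵀ` is added to `A` (all principal minors of both matrices being nonzero), and
it holds for all `d` if `A` is the sum of an invertible diagonal matrix and `u cᵀ`, where all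
coordinates of `c` are nonzero.
-/

set_option autoImplicit false

namespace Pool.Agent.Results.MP_adb389_ag.RankOneWLP

open MvPolynomial

/-- The linear form `y_i = ∑ j, a_ij x_j`. -/
noncomputable def rowForm {n : ℕ} {K : Type} [Field K] (A : Matrix (Fin n) (Fin n) K)
    (i : Fin n) : MvPolynomial (Fin n) K := ∑ j, C (A i j) * X j

/-- The ideal `I_(A,d)` generated by the `x_i ^ d_i * y_i`. -/
noncomputable def idealAd {n : ℕ} {K : Type} [Field K] (A : Matrix (Fin n) (Fin n) K)
    (d : Fin n → ℕ) : Ideal (MvPolynomial (Fin n) K) :=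
  Ideal.span (Set.range fun i => X i ^ d i * rowForm A i)

/-- The graded piece `B_k` of `B = R / I`: the image of the homogeneous polynomials of degree
`k`. -/
noncomputable def piece {n : ℕ} {K : Type} [Field K] (I : Ideal (MvPolynomial (Fin n) K))
    (k : ℕ) : Submodule K (MvPolynomial (Fin n) K ⧸ I) :=
  (homogeneousSubmodule (Fin n) K k).map (Ideal.Quotient.mkₐ K I).toLinearMap

/-- `L` is a weak Lefschetz element of `R / I`: it is a linear form and the multiplication by `L`
from `B_k` to `B_(k+1)` is injective or surjective, for every `k`. -/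
def WeakLefschetz {n : ℕ} {K : Type} [Field K] (I : Ideal (MvPolynomial (Fin n) K))
    (L : MvPolynomial (Fin n) K) : Prop :=
  L.IsHomogeneous 1 ∧ ∀ k : ℕ,
    (∀ b ∈ piece I k, Ideal.Quotient.mk I L * b = 0 → b = 0) ∨
      (∀ b ∈ piece I (k + 1), ∃ a ∈ piece I k, Ideal.Quotient.mk I L * a = b)

/-- The linear form `c · x`. -/
noncomputable def linForm {n : ℕ} {K : Type} [Field K] (c : Fin n → K) :
    MvPolynomial (Fin n) K := ∑ j, C (c j) * X j

/-- The principal minor of `A` on the index set `S`. -/
noncomputable def minor {n : ℕ} {K : Type} [Field K] (A : Matrix (Fin n) (Fin n) K)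
    (S : Finset (Fin n)) : K :=
  (A.submatrix (fun i : S => (i : Fin n)) (fun i : S => (i : Fin n))).det

end Pool.Agent.Results.MP_adb389_ag.RankOneWLP

namespace Pool.Agent.Results.MP_adb389_ag.RankOneWLP

open MvPolynomial Pool.Agent.Lib.MP_adb389_ag

variable {n : ℕ} {K : Type} [Field K]

theorem weak_iff {A : Matrix (Fin n) (Fin n) K} {d : Fin n → ℕ} {c : Fin n → K} :
    WeakLefschetz (idealAd A d) (linForm c) ↔
      ∀ k : ℕ, Inj (idl A d) (lin c) k ∨ Sur (idl A d) (lin c) k 1 := by
  have hI : idealAd A d = idl A d := rfl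
  have hL : linForm c = lin c := rfl
  rw [hI, hL]
  constructor
  · rintro ⟨-, h⟩ k
    rcases h k with h | h
    · left
      intro f hf hm
      have h1 := h _ ⟨f, hf, rfl⟩ (by
        show Ideal.Quotient.mk _ (lin c) * Ideal.Quotient.mk _ f = 0
        rw [← map_mul]
        exact Ideal.Quotient.eq_zero_iff_mem.2 hm)
      exact Ideal.Quotient.eq_zero_iff_mem.1 h1
    · right
      intro p hp
      obtain ⟨_, ⟨f, hf, rfl⟩, h1⟩ := h _ ⟨p, hp, rfl⟩
      refine ⟨f, hf, Ideal.Quotient.eq.1 ?_⟩
      rw [map_mul]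
      exact h1.symm
  · intro h
    refine ⟨lin_hom' c, fun k => ?_⟩
    rcases h k with h | h
    · left
      rintro _ ⟨f, hf, rfl⟩ hb
      have h1 : Ideal.Quotient.mk (idl A d) (lin c * f) = 0 := by
        rw [map_mul]
        exact hb
      exact Ideal.Quotient.eq_zero_iff_mem.2 (h f hf (Ideal.Quotient.eq_zero_iff_mem.1 h1))
    · right
      rintro _ ⟨p, hp, rfl⟩
      obtain ⟨f, hf, hfp⟩ := h p hp
      refine ⟨_, ⟨f, hf, rfl⟩, ?_⟩
      show Ideal.Quotient.mk (idl A d) (lin c) * Ideal.Quotient.mk (idl A d) f =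
        Ideal.Quotient.mk (idl A d) p
      rw [← map_mul]
      exact (Ideal.Quotient.eq.2 hfp).symm

/-- Invariance of the weak Lefschetz property under rank one changes, and the weak Lefschetz
property for diagonal matrices plus rank one matrices. -/
theorem result (n : ℕ) (K : Type) [Field K] [CharZero K] :
    (∀ (A : Matrix (Fin n) (Fin n) K) (u c : Fin n → K),
      (∀ S, minor A S ≠ 0) → (∀ S, minor (A + Matrix.vecMulVec u c) S ≠ 0) →
        ∀ d : Fin n → ℕ, (WeakLefschetz (idealAd A d) (linForm c) ↔
          WeakLefschetz (idealAd (A + Matrix.vecMulVec u c) d) (linForm c))) ∧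
    (∀ a u c : Fin n → K, (∀ i, a i ≠ 0) → (∀ i, c i ≠ 0) →
      (∀ S, minor (Matrix.diagonal a + Matrix.vecMulVec u c) S ≠ 0) →
        ∀ d : Fin n → ℕ,
          WeakLefschetz (idealAd (Matrix.diagonal a + Matrix.vecMulVec u c) d) (linForm c)) := by
  refine ⟨fun A u c hA hB d => ?_, fun a u c ha hc hB d => ?_⟩
  · rw [weak_iff, weak_iff]
    constructor
    · exact wlp_rank_one (good_of_det hA) (good_of_det hB) u c (fun i j => by
        rw [Matrix.add_apply, Matrix.vecMulVec_apply]) d
    · exact wlp_rank_one (good_of_det hB) (good_of_det hA) (fun i => - u i) c (fun i j => by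
        rw [Matrix.add_apply, Matrix.vecMulVec_apply]; ring) d
  · rw [weak_iff]
    refine wlp_diag_rank_one tMono (good_of_det hB) u c hc (B := Matrix.diagonal a)
      (fun i j => by rw [Matrix.add_apply, Matrix.vecMulVec_apply]) d ?_
    exact idl_diag (fun i j hij => Matrix.diagonal_apply_ne _ hij) (fun i => by
      rw [Matrix.diagonal_apply_eq]; exact ha i) d

end Pool.Agent.Results.MP_adb389_ag.RankOneWLP
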