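import Pool.Agent.Lib.MP_adb389_ag.Fld
import Pool.Agent.Lib.MP_adb389_ag.Mono
import Pool.Agent.Lib.MP_adb389_ag.MonoHR
import Pool.Agent.Lib.MP_adb389_ag.Path
import Pool.Agent.Lib.MP_adb389_ag.PathKer

/-!
# Lefschetz properties of the complete intersections `x_i ^ d_i * y_i` over real fields

Let `K` be a field with a homomorphism `σ` to the field of real numbers (a subfield of the reals),
`A` an `n × n` matrix over `K`, `y_i = ∑ j, a_ij x_j` and `I_(A,d) = (x_i ^ d_i * y_i)`. For a
subset `S` of the indices let `B_S` be the system of linear forms with `y_i` for `i ∈ S` and `x_i`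
for `i ∉ S`.

* If a linear form `L` has in every `B_S` coordinates whose signs are consistent (every `x_i` and
  every `y_i` has a sign that does not depend on `S`), then `R / I_(A,d)` has the strong Lefschetz
  property for all `d`, with Lefschetz element `L`.
* If this holds up to a common sign in every `B_S`, then `R / I_(A,d)` has the weak Lefschetz
  property for all `d`, with Lefschetz element `L`.
* For generalized strictly diagonally dominant matrices (H-matrices) `R / I_(A,d)` has the strong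
  Lefschetz property for all `d`.
-/

set_option autoImplicit false

namespace Pool.Agent.Results.MP_adb389_ag.SignCriterion

open MvPolynomial

/-- The linear form `y_i = ∑ j, a_ij x_j`. -/
noncomputable def rowForm {n : ℕ} {K : Type} [Field K] (A : Matrix (Fin n) (Fin n) K)
    (i : Fin n) : MvPolynomial (Fin n) K := ∑ j, C (A i j) * X j

/-- The ideal `I_(A,d)` generated by the `x_i ^ d_i * y_i`. -/
noncomputable def idealAd {n : ℕ} {K : Type} [Field K] (A : Matrix (Fin n) (Fin n) K)
    (d : Fin n → ℕ) : Ideal (MvPolynomial (Fin n) K) :=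
  Ideal.span (Set.range fun i => X i ^ d i * rowForm A i)

/-- The graded piece `B_k` of `B = R / I`: the image of the homogeneous polynomials of degree
`k`. -/
noncomputable def piece {n : ℕ} {K : Type} [Field K] (I : Ideal (MvPolynomial (Fin n) K))
    (k : ℕ) : Submodule K (MvPolynomial (Fin n) K ⧸ I) :=
  (homogeneousSubmodule (Fin n) K k).map (Ideal.Quotient.mkₐ K I).toLinearMap

/-- The multiplication by `L ^ s` from `B_k` to `B_(k+s)` is injective or surjective. -/
def MaxRank {n : ℕ} {K : Type} [Field K] (I : Ideal (MvPolynomial (Fin n) K))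
    (L : MvPolynomial (Fin n) K) (k s : ℕ) : Prop :=
  (∀ b ∈ piece I k, Ideal.Quotient.mk I L ^ s * b = 0 → b = 0) ∨
    (∀ b ∈ piece I (k + s), ∃ a ∈ piece I k, Ideal.Quotient.mk I L ^ s * a = b)

/-- `L` is a strong Lefschetz element of `R / I`. -/
def StrongLefschetz {n : ℕ} {K : Type} [Field K] (I : Ideal (MvPolynomial (Fin n) K))
    (L : MvPolynomial (Fin n) K) : Prop :=
  L.IsHomogeneous 1 ∧ ∀ k s : ℕ, MaxRank I L k s

/-- `L` is a weak Lefschetz element of `R / I`. -/
def WeakLefschetz {n : ℕ} {K : Type} [Field K] (I : Ideal (MvPolynomial (Fin n) K))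
    (L : MvPolynomial (Fin n) K) : Prop :=
  L.IsHomogeneous 1 ∧ ∀ k : ℕ, MaxRank I L k 1

/-- The principal minor of `A` on the index set `S`. -/
noncomputable def minor {n : ℕ} {K : Type} [Field K] (A : Matrix (Fin n) (Fin n) K)
    (S : Finset (Fin n)) : K :=
  (A.submatrix (fun i : S => (i : Fin n)) (fun i : S => (i : Fin n))).det

/-- `L = ∑ i ∈ S, w_i y_i + ∑ i ∉ S, w_i x_i`. -/
def HasCoords {n : ℕ} {K : Type} [Field K] (A : Matrix (Fin n) (Fin n) K) (S : Finset (Fin n))
    (L : MvPolynomial (Fin n) K) (w : Fin n → K) : Prop :=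
  L = ∑ i, C (w i) * (if i ∈ S then rowForm A i else X i)

/-- The real number `w_i` has the sign of `η_i` if `i ∈ S` and the sign of `ε_i` if `i ∉ S`
(and is nonzero). -/
def Signs {n : ℕ} (ε η : Fin n → ℝ) (S : Finset (Fin n)) (w : Fin n → ℝ) : Prop :=
  (∀ i, i ∉ S → 0 < ε i * w i) ∧ (∀ i, i ∈ S → 0 < η i * w i)

end Pool.Agent.Results.MP_adb389_ag.SignCriterion

namespace Pool.Agent.Results.MP_adb389_ag.SignCriterion

open MvPolynomial Pool.Agent.Lib.MP_adb389_ag

variable {n : ℕ} {K : Type} [Field K]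

theorem idealAd_eq (A : Matrix (Fin n) (Fin n) K) (d : Fin n → ℕ) :
    idealAd A d = idl A d := rfl

theorem maxRank_of {I : Ideal (MvPolynomial (Fin n) K)} {L : MvPolynomial (Fin n) K}
    {k s : ℕ} (h : Inj I (L ^ s) k ∨ Sur I (L ^ s) k s) : MaxRank I L k s := by
  rcases h with h | h
  · left
    rintro _ ⟨f, hf, rfl⟩ hb
    have h1 : Ideal.Quotient.mk I (L ^ s * f) = 0 := by
      rw [map_mul, map_pow]
      exact hb
    exact Ideal.Quotient.eq_zero_iff_mem.2 (h f hf (Ideal.Quotient.eq_zero_iff_mem.1 h1))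
  · right
    rintro _ ⟨p, hp, rfl⟩
    obtain ⟨f, hf, hfp⟩ := h p hp
    refine ⟨_, ⟨f, hf, rfl⟩, ?_⟩
    show Ideal.Quotient.mk I L ^ s * Ideal.Quotient.mk I f = Ideal.Quotient.mk I p
    rw [← map_pow, ← map_mul]
    exact (Ideal.Quotient.eq.2 hfp).symm

theorem coeff_lin (c : Fin n → K) (j : Fin n) :
    coeff (Finsupp.single j 1) (lin c) = c j := by
  unfold lin
  rw [coeff_sum, Finset.sum_eq_single j]
  · rw [coeff_C_mul, coeff_X, if_pos rfl, mul_one]
  · intro i _ hi
    rw [coeff_C_mul, coeff_X, if_neg, mul_zero]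
    intro h
    exact hi (Finsupp.single_left_injective one_ne_zero h)
  · intro h; exact absurd (Finset.mem_univ j) h

theorem lin_of_coords {A : Matrix (Fin n) (Fin n) K} {S : Finset (Fin n)}
    {L : MvPolynomial (Fin n) K} {w : Fin n → K} (h : HasCoords A S L w) :
    L = lin fun j => (∑ i ∈ S, w i * A i j) + if j ∈ S then 0 else w j := by
  rw [h]
  unfold lin
  have e : ∀ i, C (w i) * (if i ∈ S then rowForm A i else X i) =
      (if i ∈ S then ∑ j, C (w i * A i j) * X j else 0) +
        C (if i ∈ S then 0 else w i) * (X i : MvPolynomial (Fin n) K) := by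
    intro i
    by_cases hi : i ∈ S
    · rw [if_pos hi, if_pos hi, if_pos hi, C_0, zero_mul, add_zero, rowForm, Finset.mul_sum]
      exact Finset.sum_congr rfl fun j _ => by rw [C_mul, mul_assoc]
    · rw [if_neg hi, if_neg hi, if_neg hi, zero_add]
  rw [Finset.sum_congr rfl fun i _ => e i, Finset.sum_add_distrib]
  have e2 : ∀ j, C ((∑ i ∈ S, w i * A i j) + if j ∈ S then 0 else w j) *
      (X j : MvPolynomial (Fin n) K) = (∑ i ∈ S, C (w i * A i j) * X j) +
        C (if j ∈ S then 0 else w j) * X j := by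
    intro j
    rw [C_add, add_mul, map_sum, Finset.sum_mul]
  rw [Finset.sum_congr rfl fun j _ => e2 j, Finset.sum_add_distrib]
  congr 1
  rw [← Finset.sum_filter, Finset.filter_mem_eq_inter, Finset.univ_inter, Finset.sum_comm]

theorem crd_of_coords (σ : K →+* ℝ) {A : Matrix (Fin n) (Fin n) K} {S : Finset (Fin n)}
    {c w : Fin n → K} (h : HasCoords A S (lin c) w) :
    Crd (A.map σ) (fun j => σ (c j)) S fun i => σ (w i) := by
  intro j
  have h1 := lin_of_coords h
  have h2 := congrArg (coeff (Finsupp.single j 1)) h1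
  rw [coeff_lin, coeff_lin] at h2
  show σ (c j) = _
  rw [h2, map_add, map_sum]
  congr 1
  · exact Finset.sum_congr rfl fun i _ => by rw [map_mul, Matrix.map_apply]
  · by_cases hj : j ∈ S
    · rw [if_pos hj, if_pos hj, map_zero]
    · rw [if_neg hj, if_neg hj]

theorem exists_lin {A : Matrix (Fin n) (Fin n) K} {L : MvPolynomial (Fin n) K}
    {w : Fin n → K} (h : HasCoords A ∅ L w) : ∃ c, L = lin c :=
  ⟨_, lin_of_coords h⟩

/-- Dominant matrices. -/
theorem dominant (σ : K →+* ℝ) {A : Matrix (Fin n) (Fin n) K} {z : Fin n → ℝ}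
    (hz : ∀ i, 0 < z i)
    (h : ∀ j, ∑ i ∈ Finset.univ.erase j, z i * |σ (A i j)| < z j * |σ (A j j)|) :
    (∀ S, minor A S ≠ 0) ∧
      ∃ L : MvPolynomial (Fin n) K, ∀ d : Fin n → ℕ, StrongLefschetz (idealAd A d) L := by
  obtain ⟨q, hq, hq2⟩ := exists_rat_weights (A := A.map σ) hz h
  obtain ⟨ε, η, hη, hcrit⟩ := crit_of_dominant (A := A.map σ) hq hq2
  have hA : Good (A.map σ) := good_of_crit (c := fun j => ∑ i, (q i : ℝ) * (η i * A.map σ i j))
    (ε := ε) (η := η) fun S => by
      obtain ⟨w, hw, h1⟩ := hcrit S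
      exact ⟨w, hw, Or.inl h1⟩
  obtain ⟨η', hη'⟩ : ∃ η' : Fin n → K, ∀ i, σ (η' i) = η i := by
    refine ⟨fun i => if η i = 1 then 1 else -1, fun i => ?_⟩
    dsimp only
    by_cases hi : η i = 1
    · rw [if_pos hi, map_one, hi]
    · rw [if_neg hi, map_neg, map_one]
      exact ((hη i).resolve_left hi).symm
  have hc : ∀ j, σ (∑ i, (q i : K) * (η' i * A i j)) =
      ∑ i, (q i : ℝ) * (η i * A.map σ i j) := by
    intro j
    rw [map_sum]
    exact Finset.sum_congr rfl fun i _ => by
      rw [map_mul, map_mul, map_ratCast, hη', Matrix.map_apply]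
  refine ⟨det_ne_zero_of_good (good_map σ hA),
    lin fun j => ∑ i, (q i : K) * (η' i * A i j), fun d => ⟨lin_hom' _, fun k s => ?_⟩⟩
  rw [idealAd_eq]
  refine maxRank_of (slp_descend σ hA (fun k hk => ?_) k s)
  simp only [hc]
  exact inj_of_crit (tPathKer tPath) tMono tMonoHR hcrit d k hk

/-- The two criteria and the case of H-matrices. -/
theorem result (n : ℕ) (K : Type) [Field K] (σ : K →+* ℝ) (A : Matrix (Fin n) (Fin n) K) :
    (∀ (L : MvPolynomial (Fin n) K) (ε η : Fin n → ℝ),
      (∀ S : Finset (Fin n), ∃ w : Fin n → K, HasCoords A S L w ∧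
        Signs ε η S fun i => σ (w i)) →
        (∀ S, minor A S ≠ 0) ∧ ∀ d : Fin n → ℕ, StrongLefschetz (idealAd A d) L) ∧
    (∀ (L : MvPolynomial (Fin n) K) (ε η : Fin n → ℝ),
      (∀ S : Finset (Fin n), ∃ w : Fin n → K, HasCoords A S L w ∧
        (Signs ε η S (fun i => σ (w i)) ∨ Signs ε η S fun i => - σ (w i))) →
        (∀ S, minor A S ≠ 0) ∧ ∀ d : Fin n → ℕ, WeakLefschetz (idealAd A d) L) ∧
    (((∃ z : Fin n → ℝ, (∀ i, 0 < z i) ∧
        ∀ j, ∑ i ∈ Finset.univ.erase j, z i * |σ (A i j)| < z j * |σ (A j j)|) ∨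
      (∃ x : Fin n → ℝ, (∀ i, 0 < x i) ∧
        ∀ i, ∑ j ∈ Finset.univ.erase i, |σ (A i j)| * x j < |σ (A i i)| * x i)) →
      (∀ S, minor A S ≠ 0) ∧
        ∃ L : MvPolynomial (Fin n) K, ∀ d : Fin n → ℕ, StrongLefschetz (idealAd A d) L) := by
  refine ⟨fun L ε η h => ?_, fun L ε η h => ?_, fun h => ?_⟩
  · obtain ⟨w0, hw0, -⟩ := h ∅
    obtain ⟨c, rfl⟩ := exists_lin hw0
    have h' : ∀ S : Finset (Fin n), ∃ w, Crd (A.map σ) (fun j => σ (c j)) S w ∧
        (∀ i, i ∉ S → 0 < ε i * w i) ∧ (∀ i, i ∈ S → 0 < η i * w i) := by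
      intro S
      obtain ⟨w, hw, h1⟩ := h S
      exact ⟨_, crd_of_coords σ hw, h1⟩
    have hA : Good (A.map σ) := good_of_crit (c := fun j => σ (c j)) (ε := ε) (η := η)
      fun S => by
        obtain ⟨w, hw, h1⟩ := h' S
        exact ⟨w, hw, Or.inl h1⟩
    refine ⟨det_ne_zero_of_good (good_map σ hA), fun d => ⟨lin_hom' c, fun k s => ?_⟩⟩
    rw [idealAd_eq]
    exact maxRank_of (slp_descend σ hA (fun k hk =>
      inj_of_crit (tPathKer tPath) tMono tMonoHR h' d k hk) k s)
  · obtain ⟨w0, hw0, -⟩ := h ∅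
    obtain ⟨c, rfl⟩ := exists_lin hw0
    have h' : ∀ S : Finset (Fin n), ∃ w, Crd (A.map σ) (fun j => σ (c j)) S w ∧
        ((∀ i, i ∉ S → 0 < ε i * w i) ∧ (∀ i, i ∈ S → 0 < η i * w i) ∨
          (∀ i, i ∉ S → ε i * w i < 0) ∧ (∀ i, i ∈ S → η i * w i < 0)) := by
      intro S
      obtain ⟨w, hw, h1⟩ := h S
      refine ⟨_, crd_of_coords σ hw, ?_⟩
      rcases h1 with h1 | h1
      · exact Or.inl h1
      · right
        refine ⟨fun i hi => ?_, fun i hi => ?_⟩
        · have := h1.1 i hi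
          rw [mul_neg] at this
          linarith
        · have := h1.2 i hi
          rw [mul_neg] at this
          linarith
    have hA : Good (A.map σ) := good_of_crit h'
    refine ⟨det_ne_zero_of_good (good_map σ hA), fun d => ⟨lin_hom' c, fun k => ?_⟩⟩
    rw [idealAd_eq]
    refine maxRank_of ?_
    rw [pow_one]
    exact wlp_descend σ hA (fun k => wlp_of_crit (tPathKer tPath) tMono tMonoHR h' d k) k
  · rcases h with ⟨z, hz, h⟩ | ⟨x, hx, h⟩
    · exact dominant σ hz h
    · obtain ⟨z, hz, h2⟩ := col_of_row (A := A.map σ) hx h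
      exact dominant σ hz h2

end Pool.Agent.Results.MP_adb389_ag.SignCriterion
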